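import Pool.Agent.Run7.h243.G.CTab

set_option maxRecDepth 100000
set_option linter.all false

/-! Tables for maps with 13 countries. -/

namespace Run7.h243.D13_2_0

open Run7.h243

def d : Dir where
  n := 13
  d := 12
  c0 := 2
  T := 0x20718a24b0020431442860090c52c10842070030491052c80872862430811081cb14a00620028918404708b0c520600928704214b1032460042870852012c31401011880c728b24214710120018a08b2431081cb28018908114320504308a00b1c41892010060870cb28424510200604a0c92c7205
  TI := 0x1881cb2890400840c514b20100a1821c310914120408018728324b1022c61400c728920108920b10700604314a08720b18a0c10041490472c318a1080050890830461072c914020a0840472852c900320620710a24504b00308610600b0c128220724510304b1880021472890c610108800b14a1c9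
  CY := 0x249240000240048000049201248248209240000241000040240000040240000009241008049201008249201000201201240201241040041240048
  IX := 0x431421001410c21000421c60430040831400c11c61010850830001811c21010c50800c01481c60420400c40801822070400840450c01c22020401030451800850450c40c21010000c30451051020420001430440851000420c00840431431411000800831431440410801000c3141142044084000
  RP := 0x180000000000140000000000040000000000080000000000100000000000180000000000180000000000040000000000040000000000100000000000080000000000080000000000040
  PA := 0x2800000000001490000000000860000000001080000000001850000000002820000000001830000000001c20000000002030000000002020000000000810000000002c3000000000200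
  RS := 0x201000000000000040300000000000001040000000000000204000000000000030200000000000002020000000000000102000000000000010300000000000001030000000000000203000000000000020200000000000001020000000000000300
  O := 0x182c509101c305080c101
  NG := 0x108310518720928b
  hole := false
  X := ![0, 0, 0]
  ta := ![(0, 0), (0, 0), (0, 0)]
  tb := ![(0, 0), (0, 0), (0, 0)]
  big := []

theorem d_ok : d.Ok where
  hd := by decide +kernel
  hd2 := by decide +kernel
  hn := by decide +kernel
  k1 := by decide +kernel
  k2 := by decide +kernel
  k3 := by decide +kernel
  k4 := by decide +kernel
  vbig := by decide +kernel

theorem opt2 : Opt 13 2 :=
  whole_opt d_ok rfl (by decide) (by decide +kernel) (by decide)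

end Run7.h243.D13_2_0
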