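import Pool.Agent.Run7.h243.G.CTab

set_option maxRecDepth 100000
set_option linter.all false

/-! Tables for maps with 14 countries. -/

namespace Run7.h243.D14_2_0

open Run7.h243

def d : Dir where
  n := 14
  d := 13
  c0 := 2
  T := 0x24a1411823040c70082c308004b14a3091842070481ca1053030092c21811481823031092c02871c504a3062c324200420b1021c004a0c620c1490022cc1412891871080c714310b24118220c00a1c52c800428204624c0c80cb3000471851092821471802c10842090cc2872842031400462c93020c73010052c920610a0811cc08a24b100183148
  TI := 0x1802cc04320a1441c90852061010031c230b24a1822432ca00720504c1070c110a0092c518830220624400c1cb0450ca08230600324404b14a1c824a1850431080802c73022001c33052c928418104a18224c0cb1c014420928108c1851032c01c804800310b28c1421872410cb0893041ca20014628604510b0c708c00920a1881c02c3045089304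
  CY := 0x8048200040209001048009041040008201248000240008041240041040048008208040208041008001008040240249208240241201040008200209241241040208240240
  IX := 0xc10840460831051c00030861410450841030000850811830441c01030020441050450830060c00850c20431060472000010850460841031400c01c40c61020850410030011010c30861440801c00440c72020850c11800030810841c61440c10000450451060820c40c00011460830880c71010000850480c61070830400030c2141102146040100
  RP := 0x400000000000400000000000c00000000000c0000000000040000000000080000000000080000000000080000000000040000000000040000000000040000000000040000000000040000000000080
  PA := 0x400000000000830000000000c20000000001800000000001050000000001880000000001070000000001c00000000001c80000000001880000000002c900000000004b0000000003020000000002c0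
  RS := 0x2010000000000000202000000000000020100000000000003020000000000000102000000000000020300000000000003020000000000000103000000000000020100000000000002020000000000000202000000000000030100000000000001030000000000000300
  O := 0xd182c509101c305080c101
  NG := 0x420c41461c824a2cc
  hole := false
  X := ![0, 0, 0]
  ta := ![(0, 0), (0, 0), (0, 0)]
  tb := ![(0, 0), (0, 0), (0, 0)]
  big := [(9, 9), (5, 6), (12, 10), (9, 0), (10, 1), (12, 2), (1, 12), (0, 8)]

theorem d_ok : d.Ok where
  hd := by decide +kernel
  hd2 := by decide +kernel
  hn := by decide +kernel
  k1 := by decide +kernel
  k2 := by decide +kernel
  k3 := by decide +kernel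
  k4 := by decide +kernel
  vbig := by decide +kernel

theorem opt2 : Opt 14 2 :=
  whole_opt d_ok rfl (by decide) (by decide +kernel) (by decide)

end Run7.h243.D14_2_0
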