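import Pool.Agent.Run7.h243.G.CTab

set_option maxRecDepth 100000
set_option linter.all false

/-! Tables for maps with 15 countries. -/

namespace Run7.h243.D15_2_0

open Run7.h243

def d : Dir where
  n := 15
  d := 14
  c0 := 2
  T := 0x1850401c408b28d24330810b3460810082893031c51c814900b04a1023460cc0470cd18020c2c228914418d30120714a10324008b1c414304200a18824b30d0c73052c01021892883412c920d18a1413001c310224010c0421880c728534b1090402c60c534828c1c214b08d0c92840081c130620604d1c508028930310b04910d00a1852021cc0cb20918c2813440831c014b24604700534a3022c3108
  TI := 0x1011850c024d3080872ca2c330510604a00d0892070c020628c3422c50441c92861430873090402c434830b0060c920d1c51012820010860c43452cc28824704b24310230528734600828534830b0c91c108018404a00334610708b14824c14224330404818d1c02ca2813072040c034624b08528300510d24c2010872c62820083050c718b0443491ca00930d0cb0461052021c50c634028c2010842c9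
  CY := 0x8200240248200049008000200208209000208200009209200049241249201208201000209040000008008000008200041240001200000048201040200008041248208041200000000200001248
  IX := 0xc71490810c42020401801020c21841830450401400810c82420c71050460001450840c71840410c20000c20450420c41050071800411482830871822440000830840481061400c70400850c11800c710908120004a0490850c41c22060001021080c11820c01c11402010871031812421430000880411031490031c60801c404614508310204300018204100714224310a2001c31052011840810c2000
  RP := 0x800000000000800000000000400000000000400000000000c0000000000040000000000100000000000200000000000040000000000100000000000040000000000140000000000040000000000240000000000040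
  PA := 0x1c00000000000810000000000480000000000c900000000010a00000000014d0000000001c600000000020700000000024800000000010a0000000002c300000000014c00000000034400000000030d000000000080
  RS := 0x20100000000000002010000000000000202000000000000010200000000000001020000000000000102000000000000020100000000000002010000000000000201000000000000020200000000000002020000000000000202000000000000020200000000000002010000000000000300
  O := 0x70d182c509101c305080c101
  NG := 0x108310518720928b30d
  hole := false
  X := ![0, 0, 0]
  ta := ![(0, 0), (0, 0), (0, 0)]
  tb := ![(0, 0), (0, 0), (0, 0)]
  big := [(7, 4), (12, 0), (13, 4), (3, 7), (11, 12), (9, 12)]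

theorem d_ok : d.Ok where
  hd := by decide +kernel
  hd2 := by decide +kernel
  hn := by decide +kernel
  k1 := by decide +kernel
  k2 := by decide +kernel
  k3 := by decide +kernel
  k4 := by decide +kernel
  vbig := by decide +kernel

theorem opt2 : Opt 15 2 :=
  whole_opt d_ok rfl (by decide) (by decide +kernel) (by decide)

end Run7.h243.D15_2_0
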