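import Pool.Agent.Run7.h243.G.CTab

set_option maxRecDepth 100000
set_option linter.all false

/-! Tables for maps with 16 countries. -/

namespace Run7.h243.D16_2_0

open Run7.h243

def d : Dir where
  n := 16
  d := 15
  c0 := 2
  T := 0x1812831421cc10800e34b24530e3482810070cb0862440cb28620708c00e24114434108e1c43032092c014a34610118724b30338828500234d08b18430914e00120a0c700424a0c814d2c63813021c610a0c808d38c1c124b0050852c338418004a1cd30920420234318738130900528b0c234c1842c13801ca24520224b2812040cc3801853471443472cc24328204020e18b1c604c34520024a10e0c208b00a14d10804718c24e0c318510904e34728800c2c2
  TI := 0xc21c130014838a18b24d10c2cd10904a1823801432071401cd3042892c204e20318c0491421872c00ca20d38418020910a14b30338704d08638930220300b1ca04d1051070862cc24014834a04338720608c0ca14e00d2c910128308c14100420d24b3861c72c500110d20908e28c18318c2c80c200428124e34714504630b3490030881ce28404c24a18808b00e3471440c224a38414734c2030402c60490cd2c21c510a2003863081c204528418d30b380243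
  CY := 0x8209040000001240000208209241249000201208200209249249001249241049200249209049000208000240249200041200040000201008008008040040000008040248048048240200248200009049249209008000240000
  IX := 0x1c30c51010422002460840050c40820432891811c80002411021421830c804a1c00041830880840c10490071401410c91c808a1011800c200720414a0c204608b0490001020872031011850c90400032050460c70840490802801c404218404608514300300508204a1c31080462c02400c40c204604808a1c014900220414624a04304b0801c00471830851040422050c00020880c70440c90061411000440851832482c728108000a0821c41490400c82c1180
  RP := 0x1400000000000400000000000400000000000c00000000000c00000000000400000000000400000000000800000000000800000000000800000000000c0000000000080000000000040000000000140000000000040000000000180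
  PA := 0x1c00000000002050000000000860000000000c400000000010d00000000018500000000018700000000024800000000038900000000030900000000028d00000000014b000000000307000000000340000000000383000000000180
  RS := 0x301000000000000030200000000000001020000000000000102000000000000010200000000000002010000000000000102000000000000020200000000000002020000000000000201000000000000010200000000000003010000000000000102000000000000010200000000000001030000000000000300
  O := 0x3c70d182c509101c305080c101
  NG := 0x420c41461c824a2cc34e
  hole := false
  X := ![0, 0, 0]
  ta := ![(0, 0), (0, 0), (0, 0)]
  tb := ![(0, 0), (0, 0), (0, 0)]
  big := []

theorem d_ok : d.Ok where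
  hd := by decide +kernel
  hd2 := by decide +kernel
  hn := by decide +kernel
  k1 := by decide +kernel
  k2 := by decide +kernel
  k3 := by decide +kernel
  k4 := by decide +kernel
  vbig := by decide +kernel

theorem opt2 : Opt 16 2 :=
  whole_opt d_ok rfl (by decide) (by decide +kernel) (by decide)

end Run7.h243.D16_2_0
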