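import Pool.Agent.Run7.h243.G.CTab

set_option maxRecDepth 100000
set_option linter.all false

/-! Tables for maps with 17 countries. -/

namespace Run7.h243.D17_2_0

open Run7.h243

def d : Dir where
  n := 17
  d := 16
  c0 := 2
  T := 0x2c12020c030e3c51c624428d24f10008e18328b04530d1c820d1c90c018238510b04c28f2c714d08f00a1091883833010471003ce28c08320634524b38b3c62420442883431c014c00d0c92880421051cb18f30e2c704830f38408a34914600304f18034e2891051c330808b28c1891c33412023851002cf2440cb00738a18d3c21483011012c32800853083493ce1c624520a38f0863410031cc2c428d0c72003c638230504910b0c224400738c04b3c614834a04c20708d14e0cf1002ca24624314f20c3442823811802c7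
  TI := 0x1c80093c10cd1441822cc38a38a0831873c004910d20b14c00738210130f3491852c80ca2833013c818438534708b0092ca0c800904538408d1873cc34f1403872c60cc04810a24208038110b30a14318734824f28914b3c610c3820c800734138a2c300920214d1871013cc00524e04f3072cd1032862021491813083c22870ce34400b0c214734b10604020f30938a28b1c204c3cd0c838010918524738500f08b3081013460ca1490481803422840cc3ce1cb18828e0c204d3002451cb3c430524a0473cb003348386102
  CY := 0x201208249240248248249048048000200000240241201240008000041200248208008008001008000008241249241040240049000048000201200008248049249240241008201248201048000040049000209208200000008200049241200240000201001008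
  IX := 0x1430491852021020c11c01001032431c21410462ca08800004108424c1420061c82832c01c20c22061850c510404004008604b04510a1c32420080c00c408114718318204414800030108120908a1841470cb0000c90c51022062810870401001850880440c21431061c100004624704220308a1440cb00020a1420c22410c41cb1800401081021461820410c50c70000c91012021050c62810801c01851830471421030811c400008610930114808b04a0070c00840852011031811461c00c010818304214204a1c324b000
  RP := 0x800000000000400000000001c00000000000800000000000c00000000000400000000000400000000000800000000000400000000000400000000000800000000000400000000000800000000000400000000000c0000000000080000000000040
  PA := 0xc000000000004c0000000003420000000000c900000000034a00000000014600000000030600000000028d00000000020b00000000004900000000028b0000000003800000000003010000000003400000000003c700000000020f000000000200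
  RS := 0x2010000000000000103000000000000030100000000000001020000000000000302000000000000010200000000000002010000000000000202000000000000010200000000000003010000000000000102000000000000020200000000000001020000000000000102000000000000020200000000000002010000000000000300
  O := 0x203c70d182c509101c305080c101
  NG := 0x108310518720928b30d38f
  hole := false
  X := ![0, 0, 0]
  ta := ![(0, 0), (0, 0), (0, 0)]
  tb := ![(0, 0), (0, 0), (0, 0)]
  big := [(9, 7), (0, 4), (5, 10), (16, 7), (7, 1)]

theorem d_ok : d.Ok where
  hd := by decide +kernel
  hd2 := by decide +kernel
  hn := by decide +kernel
  k1 := by decide +kernel
  k2 := by decide +kernel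
  k3 := by decide +kernel
  k4 := by decide +kernel
  vbig := by decide +kernel

theorem opt2 : Opt 17 2 :=
  whole_opt d_ok rfl (by decide) (by decide +kernel) (by decide)

end Run7.h243.D17_2_0
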