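import Pool.Agent.Run7.h243.G.CTab

set_option maxRecDepth 100000
set_option linter.all false

/-! Tables for maps with 18 countries. -/

namespace Run7.h243.D18_2_0

open Run7.h243

def d : Dir where
  n := 18
  d := 17
  c0 := 2
  T := 0x2072821833cc2c124d00440538b31028510e0091883c108d1c32c234300a1c115020e18910c3ce10108018c14f3492d02831c830020a1103c72c60ce0493421421c300b10534f40124e18828c0cd2891901052cf1ce08004c2093873c008504d4031062c828c1410d028d00c2ce0843c61c920128608524c1074002c33483ce10c3434090873cb28e1410062094081c11052cf38200630a0cd10704c18d00224b20e14f0ca40210031018f2c534324e1c82812503071821012c320e3c028534d14a38f0c01c91812c21083100c500228c3902c910d20f1c604308c40710518904d3c02c838a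
  TI := 0x8a00524838640f3010cb34710e14a08f40d20604730b0031091c014e0502c318a10808d3c93042101ca14318004b24f08d38c2ca1424083433891c03060443c72042403011423c328b39018d2c714f04838d0063092901020c734f2000c140238428518b24c3441cb2483010020d014e18f2870400ca14f2c220e30910d40630814e3c718b00904440d28308f20700324240e34428b04630500314b34704818f30440224e28c2841cd2411420cb20f19000e3c414038809018d3012872c90c030d40114e2022473c32c418a2432852c830710204f19034038d14118e0c020230928b40f1c4
  CY := 0x8040200000201000008000200048040000000008201200000000041201001200001200040049209049209049209249249200200001201201209249209248000041040000000040000008201049049201201009209248240248249209209008048249249209040041041200041000200008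
  IX := 0x24304708b08128400634c2050060450c21c434c28b0080422400411c83020ca1401060c908b00408520c04b0c11c200328918014c08a1842c10c20c11c02480040842c10882810c62431401c00c42050422460430872842c000d28b2411813883040831470001070832822c904110518300800d04124314218b30210720a0001021c80c13020402c614934a00614304220c1c408a34904b0000421051841892031c308100500a0c52091020c11c50841800402ca0810c620c1421012431c000108308110424828b0c61470000c52071851c21010860c40010090c12022c11850c708c284000
  RP := 0x1800000000001400000000001c00000000001400000000000c00000000000800000000000400000000000400000000000800000000000400000000001c0000000000040000000000080000000000080000000000040000000000040000000000080000000000040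
  PA := 0x1800000000001410000000001c30000000001830000000001c80000000002050000000001830000000001cc00000000038800000000030e0000000002ca0000000000cb00000000030000000000034e0000000003800000000000c0000000000401000000000380
  RS := 0x20100000000000002010000000000000202000000000000020100000000000002020000000000000201000000000000010300000000000001030000000000000201000000000000020200000000000002010000000000000201000000000000010200000000000001020000000000000102000000000000020200000000000001020000000000000300
  O := 0x11203c70d182c509101c305080c101
  NG := 0x420c41461c824a2cc34e3d0
  hole := false
  X := ![0, 0, 0]
  ta := ![(0, 0), (0, 0), (0, 0)]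
  tb := ![(0, 0), (0, 0), (0, 0)]
  big := [(4, 0), (5, 4), (10, 0), (11, 3), (15, 3), (1, 2)]

theorem d_ok : d.Ok where
  hd := by decide +kernel
  hd2 := by decide +kernel
  hn := by decide +kernel
  k1 := by decide +kernel
  k2 := by decide +kernel
  k3 := by decide +kernel
  k4 := by decide +kernel
  vbig := by decide +kernel

theorem opt2 : Opt 18 2 :=
  whole_opt d_ok rfl (by decide) (by decide +kernel) (by decide)

end Run7.h243.D18_2_0
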