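import Pool.Agent.Run7.h243.G.CTab

set_option maxRecDepth 100000
set_option linter.all false

/-! Tables for maps with 19 countries. -/

namespace Run7.h243.D19_2_0

open Run7.h243

def d : Dir where
  n := 19
  d := 18
  c0 := 2
  T := 0x2071903d11031400812ca24c38d1032852023c900130e4072d118d1c83452423cc04428e0062d140320b34f24510c0802910463901c325130808628100f40b10d14e0c72423080463400cf40b1c528e1112c230d1063c00c740e2052912413d108440018e28520c3411cb2433c00843831c834530a40118b2511c008844314b34c10a40918e3c10d134b3051892003c40902811ce18c40b2852481033cd0803811d138c4092c520f1c300d08a4441813d10014033492072c530e18a0843c00c118840c1472c934e10a0911000c630840b14a4493821cd3c124710c0c61503ca39100b08134830424f19014044a3820cb2013471c624f01114e04d2c20d020430a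
  TI := 0x30e3410021440d140f24b2871880852c60070cf28d10139140c2090812c63ca0c735044438800c2451823833ca40735104430b00914840720210f18b44e00c0c504d2890072022cf18344e14c10125034a0872c638f44304520c10d25000a40d44a1460890470cb20e00f10c00544d24708604a2c320e30f11034504224828610e4432c730f0104041c03cd38328904b30644508800f1c319038d2ca0513092050840cf29119034438b24130220500740d4442c51c228920318030138f00b44414a1c218c20d2433c13901cb04508d28818c0ce2513c401018a24704e10844040c2cf34308524c3870511083c300d2d014608a30438a2011c03c34502c214624d
  CY := 0x248009200200040008041008001040200040000041008200200249241049248049248049241209249201249040001001200040200048008001008200200208040000209000208048048040008201201201040009040000040001208000008008048000001000201200000008000000248000200001001201000000041040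
  IX := 0x2860850490c504b1c308400810004728504424b3020c41822000c00470cb10408314808a3090401802c70c210320214c04a1090460000c22061092cc10704a0830450000442063092c40870ca0810c500004c0c61c408408a2c52480c00401c620314c28204308b10404900004c08308610904a1482c41c30000cc0840862890451082c01c30401850810c408824a0431441c60000430870c420424504214a1860001c40c80c510224528218118004030b3422832451872010810040c004d0850493080ca2c20040c718014d08120930b0ca1020060c704020328504630224110734b0830001470c204624d10c0422882c30001c20c234624110c2032812c0140
  RP := 0xc00000000000800000000000800000000000400000000000400000000000400000000000800000000000400000000000400000000001000000000000400000000000400000000000800000000000c0000000000140000000000140000000000040000000000040000000000080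
  PA := 0x28000000000008300000000008300000000014300000000010000000000014900000000018a00000000024700000000024800000000024a00000000030a00000000030d00000000030d00000000014e00000000014e000000000191000000000050000000000091000000000100
  RS := 0x201000000000000020200000000000001020000000000000201000000000000010200000000000001020000000000000102000000000000020100000000000002010000000000000102000000000000020100000000000002020000000000000102000000000000020200000000000002010000000000000202000000000000020100000000000002010000000000000300
  O := 0x911203c70d182c509101c305080c101
  NG := 0x108310518720928b30d38f411
  hole := false
  X := ![0, 0, 0]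
  ta := ![(0, 0), (0, 0), (0, 0)]
  tb := ![(0, 0), (0, 0), (0, 0)]
  big := [(3, 2), (6, 16), (4, 2), (7, 16), (5, 2), (8, 13)]

theorem d_ok : d.Ok where
  hd := by decide +kernel
  hd2 := by decide +kernel
  hn := by decide +kernel
  k1 := by decide +kernel
  k2 := by decide +kernel
  k3 := by decide +kernel
  k4 := by decide +kernel
  vbig := by decide +kernel

theorem opt2 : Opt 19 2 :=
  whole_opt d_ok rfl (by decide) (by decide +kernel) (by decide)

end Run7.h243.D19_2_0
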