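import Pool.Agent.Run7.h243.G.CTab

set_option maxRecDepth 100000
set_option linter.all false

/-! Tables for maps with 19 countries. -/

namespace Run7.h243.D19_3_0

open Run7.h243

def d : Dir where
  n := 19
  d := 18
  c0 := 3
  T := 0x1c620b2891031420404503cd30e30f21104e0d02c014d08710928630421100e0c52c129008d1c918f0442c301108838529024d1c630f2460c530b0873ca40144e10020d24c10528b0803cd38144740320620c14228e3403c14441cb4032463d11c140b18e00a0c210934c1483c028138b1c60cd09010920c15110028844e3460c22501c52cc3c115110c1c928218b3c300d40120e14710c08a34918b3c00d038121130a1cd08b24f18e4000c844414114f25100330e04708b20d40a18414331118134e2c708021010a24f0433064443822ca4002091cd14f0d11472c224f20d10a05030018e1850872c831028d10f04038325114b08a44830735000f109383181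
  TI := 0x1440c008138d30f45024b2881c638a40c19124108f1001c32c534838600c11124708f0c12902c520d3060091013c714a0c221038b44d14724400d3084412903833cb18214324721030d44110038f08b18a1c324c2d010d0511403c608e20a40d44a0c23081003cb0451c638900644d20230f1032ca04524739034604c2c20cf1ce14a1112480104031c010e20b30134944f18a0850041c32ce20c28140944f14d0860c72883913102c43c904214d00638340a10b1823c520144030724d38400a2cf24204520d44340730634700b08f2481050ce04c40a4464042802033462c93813c744c14200a18320b34904c39140708f14434818324b40e10c28144508f007
  CY := 0x841108a20848840208820824901008224820824020204249041021148005125240845204841048900a28200920848849044801101100004a40940928840145045049100041024140204809020805008120244808140104044a04a29140a20a04004120a44028020105021120021045204800804049128020020a00a40a009000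
  IX := 0x1041010410820851450c30c00000851810800840471411840c00c00850411c00850421041860c00c00850461c10821430441060030001041820420c21410c50c10040001021821031051430410c00400801420841030c50461010c20400000c21030410821c11431460001000450871810830c50c40421000000c50820810431c31841440000401c60c10420830c10842001440000410c40c50861c10880800c40001010c31051821c20080810c00400c51820830811c51811011000000c20421821411051871010000c01820461421431020470430040001440c10470820c00811031880000430c60430820401c21081440000c10c6083087040202100144040
  RP := 0x204000000000c08000000000c080000000003040000000003040000000004080000000002040000000003080000000002040000000003080000000004040000000004040000000007080000000002040000000003080000000003040000000008040000000008040000000008100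
  PA := 0x314400000001108600000001108600000000304600000000920200000000908800000000224a0000000072c400000000b10a00000000330a00000000d28600000000f2c900000001034900000000e3c400000000338f00000000744f00000000b3d000000000b29100000000b440
  RS := 0x20303000000000004020300000000000301030000000000010402000000000003030400000000000204020000000000030302000000000001030400000000000203020000000000030302000000000002010300000000000201040000000000030204000000000002020400000000000401020000000000050201000000000004030100000000000304010000000000030400
  O := 0x911203c70d182c509101c305080c101
  NG := 0x108310518720928b30d38f411
  hole := false
  X := ![0, 0, 0]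
  ta := ![(0, 0), (0, 0), (0, 0)]
  tb := ![(0, 0), (0, 0), (0, 0)]
  big := []

theorem d_ok : d.Ok where
  hd := by decide +kernel
  hd2 := by decide +kernel
  hn := by decide +kernel
  k1 := by decide +kernel
  k2 := by decide +kernel
  k3 := by decide +kernel
  k4 := by decide +kernel
  vbig := by decide +kernel

theorem opt3 : Opt 19 3 :=
  whole_opt d_ok rfl (by decide) (by decide +kernel) (by decide)

end Run7.h243.D19_3_0
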