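import Pool.Agent.Run7.h243.G.CTab

set_option maxRecDepth 100000
set_option linter.all false

/-! Tables for maps with 20 countries. -/

namespace Run7.h243.D20_1_1

open Run7.h243

def d : Dir where
  n := 20
  d := 13
  c0 := 1
  T := 0x4a20b18910308730014404b2060c21c528024c04610308814030a24b1cb2480870ca10604030500a30b1c120614910308704320a18224530400b04524200c28318420b1c73042862452c304008828610b0080470852433020032ca14424c1c818110a1872410880c030b14430720614200a2412c30462c728814008424330b14920230a1061c00c10091031c12c214a18c2072832c620110c1490020812c300c2891842071411831493021ca0042c82ca10724614308100c20024614a0472cc1080c2
  TI := 0x892c728320018510c04028304914810c1c62c21010c21c02c628920c1413062ca2040051c90c22892c31881440810073030081493071022862c11c118a08010b0c524c20b1491c030818a1010c20093021c52c32811062042481420c11c628c00b0812c81492803041870cb0440c92881cc00608500a2021c92c60c110c1473062890c42c50480020460cb00808428914730424b0873080c52801811ca1850811000c930b20704420014b24228630304c2c80091c62851030841482c218a2430401cc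
  CY := 0x41249249000000000000000000000000000000000000000000000000000000000000000000000000000000001240249200000000000000000000000000000000000000000208008000
  IX := 0x2c51841c320124228c0011c624a10b0c214c20020a1840812cc1c50c90092842c51830421cc20030a2c91461030880470070450c420908118008008424a3012051c62c30051081c11820c928c2c004608530b1ca0c91080043072c62422832050402861c30842012cc2450081ca0832c430904518004a2462072cc10314200414928b0c818708c0401021430420471840030080c408a24b1871413002871823091411032c80051cb0811080ca3091802092820431052c63070090430821440081c1180
  RP := 0x80000000000000000000000000000000000000000000000000000000000000000000000000000000000000000000000000000000000080000000000000000000000000000000000000000000000000000000000140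
  PA := 0xa00000000000100000000000a000000000003000000000006000000000001000000000007000000000008000000000002000000000003000000000009000000000007000000000004000000000005000000000008000000000006000000000001000000000002000000000003000000000007
  RS := 0x20000000000000001000000000000000100000000000000010000000000000001000000000000000200000000000000010000000000000001000000000000000100000000000000010000000000000001000000000000000100000000000000010000000000000001000000000000000200000000000000010000000000000001000000000000000100000000000000010000000000000002
  O := 0x13244480d1828407080c101
  NG := 0x420c41461c824a2cc
  hole := true
  X := ![0, 5, 14]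
  ta := ![(5, 2), (14, 12), (0, 11)]
  tb := ![(8, 7), (13, 7), (18, 9)]
  big := [(19, 12), (18, 12), (17, 7), (9, 8), (2, 10)]

theorem d_ok : d.OkH where
  hd := by decide +kernel
  hd2 := by decide +kernel
  hn := by decide +kernel
  k1 := by decide +kernel
  k2 := by decide +kernel
  k3 := by decide +kernel
  k4 := by decide +kernel
  vbig := by decide +kernel
  hh := by decide +kernel
  hX := by decide +kernel
  hdist := by decide +kernel
  va := by decide +kernel
  vb := by decide +kernel
  na := by decide +kernel
  nb := by decide +kernel
  lb := by decide +kernel
  pth := by decide +kernel
  ab := by decide +kernel
  abig := by decide +kernel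

def c1 : CTab where
  n := 20
  e := 6
  c := 1
  T := 0x1850800101
  V := 0x70b1e18485
  NU := 0x1010014203
  CY := 0x0
  IX := 0x2810608200
  RP := 0x0
  PR := 0x0
  walk := [2, 3]

theorem c1_ok : c1.Ok := ⟨by decide, by decide, by decide, by decide +kernel, by decide +kernel,
  by decide +kernel⟩

theorem opt2 : Opt 20 2 :=
  dir_opt d_ok c1_ok rfl (by decide) 0 (by decide) (by decide +kernel) (by decide +kernel)
    (by decide +kernel) (by decide)

end Run7.h243.D20_1_1
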