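import Pool.Agent.Run7.h243.G.CTab

set_option maxRecDepth 100000
set_option linter.all false

/-! Tables for maps with 20 countries. -/

namespace Run7.h243.D20_3_0

open Run7.h243

def d : Dir where
  n := 20
  d := 19
  c0 := 3
  T := 0x81c64503c148224b28c38d10314e34f2481c510604309245028c00b3123c009134504e24a0c62c81101cc14f04800d24244628310e2d01d208548d20044c0c624a2c43901cf04228d3860c540f48c0472090042d108635140420c3d22c11c90c014e29124d2101413d21cb10c0ce00608a00308c20418a40d04f1d22453912c32c230a10705034f2054893910063cb08828734441224c14100e4431911c038c0432481502d20863cd10a00c0d128118815240e3c224b3441d13c318b10814e05025208730d00a00a24404e0cc15219034f2022d11c304c1111923453894023c81cb00a1c431118504e40f24809200a2c334d24f1112c24831c014e20c04a40635010200b1d218e0c50483c92913111cb08018a0453833c421224d40c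
  TI := 0x28e34c1031471884503c008124b4861444124420033ce34a30b20724144d05024c4841c80c014b08638a3c02424043120c72ce04844518a3cd40c0c110f2c61c838225114a48034900b28f40805110518e3023521c324f38a0502c80053064423444870ca48e2c440620044f2423471413031412870893c02c438630335140848508a20324f44e10730018d4902c12422920cc1d13883cd0062c14051064880cf08e1c02ca44424130535024f2061c24433842c030a05014d48648844a0833801cc10f2cd4052412411c53462c245010020a3cc0ce48c3871492d00802040cd28f48644114f2892c04020c81d238d44118c10b3814064843424452401cf28c0c82c144425200d08314c2874083c63844811c908040c0c544d28620f2ce
  CY := 0x8844109101144220224208a21101200a44120924801128045229244828841229149120100008028044100800048140100800040140204004800205004240800001028029004001008120244000004848a20824944808a01100840100245004004200800104948820929108200a20044044000840a200401442048451000049211242088008209091410200482088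
  IX := 0x1830c30820851451041010410000030c31041010411451420820001800c21052010020871811030450030010c41460c20420870481050030001471020431850830811080030010030490c42822020811850012c01c00c32021c908104200510128b0060020c80872430411001422862c10002c80c21420c108118100a0091070032470850832860410010801082c00891c314204a1810000422c42030031030422831811c21422010090002820c10860c10c90810042001470010830c21810c12422001070052801010842480810831811c31430000042020c70830411850430840002400c80c70811010861440c22410000010c10820840061071411831c50000410841c20401861021c30c51400041411c70410821841820c3140000
  RP := 0x204000000000308000000000c0800000000030400000000040800000000050800000000080800000000080400000000061000000000071000000000081c00000000030400000000060c00000000060c000000000204000000000308000000000204000000000b04000000000b040000000002040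
  PA := 0x405200000000e1c900000000d20f0000000093cc00000000448d00000000524b00000000b48600000000804d0000000061080000000072520000000091ca00000000c44a00000000c21200000001120d00000000b21200000000c34f00000000e30700000000b0480000000121070000000072c0
  RS := 0x203040000000000020203000000000002020200000000000203020000000000010302000000000004020200000000000303010000000000030302000000000003030100000000000401020000000000030301000000000003020300000000000404020000000000020401000000000003030200000000000303010000000000040302000000000003020200000000000102020000000000030300
  O := 0x4c911203c70d182c509101c305080c101
  NG := 0x420c41461c824a2cc34e3d0452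
  hole := false
  X := ![0, 0, 0]
  ta := ![(0, 0), (0, 0), (0, 0)]
  tb := ![(0, 0), (0, 0), (0, 0)]
  big := [(1, 16), (18, 12), (11, 7), (19, 1), (2, 15), (18, 10), (9, 9), (19, 2)]

theorem d_ok : d.Ok where
  hd := by decide +kernel
  hd2 := by decide +kernel
  hn := by decide +kernel
  k1 := by decide +kernel
  k2 := by decide +kernel
  k3 := by decide +kernel
  k4 := by decide +kernel
  vbig := by decide +kernel

theorem opt3 : Opt 20 3 :=
  whole_opt d_ok rfl (by decide) (by decide +kernel) (by decide)

end Run7.h243.D20_3_0
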