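import Pool.Agent.Run7.h243.G.CTab

set_option maxRecDepth 100000
set_option linter.all false

/-! Tables for maps with 21 countries. -/

namespace Run7.h243.D21_1_1

open Run7.h243

def d : Dir where
  n := 21
  d := 14
  c0 := 1
  T := 0xc030934420128608b1471853081c22c404024334a3081cb28300418914134200814b1ca3011891033422c728114420d0c63090020c034108918428530b2070c718420108d28024b14c2c308828c18d24010114724010528118b30834308718b1c03421480493032842cd10814c0070c908118a0402843072c20c624814d20b1c508318430d2402811031c900a3021883412c504b0880c730500a34918418d28908c2c70431402040431cb08600528910c20d1883043431472c908028118408b0cd00704814930a0c518108a0041c830b3492c330914a18d100207042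
  TI := 0x24b08528700404834318c04b1c00ca24d30608814404d28910c2c50c620008704728810c2452c308018d18334b0873042481402812c308520100710634928c1800850c930b04a34720418834914a00704330b0840c518934400728b08120c2433011062cd1c008814a30834010a18124b1430870091cb0c220404a14634c1053010cd2c72862090020c70482842c500d3060890c730408a20118024b3453081cb28118d0c01091420022851012c818330934724b14110c18d1ca20300220128008418d0cc24b14704308800414b30634928718b348283087245300044
  CY := 0x240200208240000000000000000000000000000000000000000001008001240000000000000000000000000000000000000000008
  IX := 0x24d30720204418328b1402c81c114218c24d1032800c430b2853481c918108034624810714b2830813002852cc0871890c81013402cd28520704210330918018110c2090852cd1c32800cb10920a0421cd30518024d0cb2850423042071800c824d0852842c11c63001031411c234c20624a2c00460c41410860c510008024414230a1870c82cd04024714c34b18204a20310028518220310c3412472c01c628b3052480c108d1000411c610320414308008014a24210b1c620330d0402c808110a34c1891431c024b0c70463443052822001061492880832cc1c1000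
  RP := 0x2000000000000000000000000000000000000000000000000000000000080000000000000000000000000000000000000000000000040
  PA := 0x200000000000800000000000400000000000800000000000400000000000a00000000000900000000000600000000000700000000000900000000000a00000000000a00000000000000000000000b00000000000000000000000b00000000000700000000000d00000000000c000000000000000000000004
  RS := 0x200000000000000020000000000000001000000000000000100000000000000020000000000000001000000000000000200000000000000020000000000000002000000000000000100000000000000010000000000000003000000000000000100000000000000010000000000000002000000000000000200000000000000020000000000000002000000000000000100000000000000020000000000000002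
  O := 0xa13243c70d16284070c0c101
  NG := 0x108310518720928b30d
  hole := true
  X := ![0, 4, 9]
  ta := ![(4, 12), (9, 12), (0, 1)]
  tb := ![(2, 12), (7, 11), (2, 4)]
  big := []

theorem d_ok : d.OkH where
  hd := by decide +kernel
  hd2 := by decide +kernel
  hn := by decide +kernel
  k1 := by decide +kernel
  k2 := by decide +kernel
  k3 := by decide +kernel
  k4 := by decide +kernel
  vbig := by decide +kernel
  hh := by decide +kernel
  hX := by decide +kernel
  hdist := by decide +kernel
  va := by decide +kernel
  vb := by decide +kernel
  na := by decide +kernel
  nb := by decide +kernel
  lb := by decide +kernel
  pth := by decide +kernel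
  ab := by decide +kernel
  abig := by decide +kernel

def c1 : CTab where
  n := 21
  e := 6
  c := 1
  T := 0x1850800101
  V := 0x4902230284
  NU := 0x1010014203
  CY := 0x0
  IX := 0x2810608200
  RP := 0x0
  PR := 0x0
  walk := [3, 1]

theorem c1_ok : c1.Ok := ⟨by decide, by decide, by decide, by decide +kernel, by decide +kernel,
  by decide +kernel⟩

theorem opt2 : Opt 21 2 :=
  dir_opt d_ok c1_ok rfl (by decide) 0 (by decide) (by decide +kernel) (by decide +kernel)
    (by decide +kernel) (by decide)

end Run7.h243.D21_1_1
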