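import Pool.Agent.Run7.h243.G.CTab

set_option maxRecDepth 100000
set_option linter.all false

/-! Tables for maps with 21 countries. -/

namespace Run7.h243.D21_3_0

open Run7.h243

def d : Dir where
  n := 21
  d := 20
  c0 := 3
  T := 0x532c330521124035010728e3d208604f2c644520d3031d011228e24009318f2c84450d03072933923422401011ca0513024041464d200334e2cf2091cf0511024131491800cb34e31220a44f1131c224114318038b40831228d3c005230d18314b1c938828241311148f04018d24714b20c39028245310300f1091902ca14e20c09334744148348804b35044f3861054cc28224300700d04b4904443893c54cc2821c60c82d01114932473813c508c34328600848a2460480c010e4cc2c734215044f0013090c819310e1cf2c534249044a2443060c83811cb28f08541149300d3c62921c82423402d340c44e04414348728008830b3433d340144e18414900a34c0880cb4133c138444518748928f4c644508748304438c40d24800b2914c91c50810063c438c40d2c80d225104228518400e3c740c4c32c8352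
  TI := 0x4823080c424f4452cd1803874014ca0063c848430b4450cd2503872814c22063cc48714b4490d029338134400224840d08414f0d20014ca2cc18e44730240d4841431802814c92cf1ce4484024c54870031813443c92d128e3080900034c738f28520624d2c13044520930c648738828534930f2c10044501810ce48a14834c40910f2d10070931d334e30b3c64050d200a2090844411cf34e24b4864052800c220c04445338f41224b1464c334030221110728125304200a1481d244e1900cb3443cc30304220a1511c040e24d18b3c449308310520d0112894ce2d01923c73012101474c42c625134e3d204200c0ca2131472442cd31100e48304228f19028114b24745031200e08310634f21344b3c54871060130c231038828d2414404852471060d34023ca38804d30b14048724a0460cf4c220d38c11044b
  CY := 0x25241241200044809245244a28920049244a44a28820004948a24104a28844024200040144008048104040028800009025248800000009225240800000208a29200800000208040800124000208140004104040008140024004000101020025144000101020829104020200024829004024125141124104000801244004820800a00a40004920000208a001491040002488011411040401480091210040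
  IX := 0xc20c80441821061470811430010000410c80841851060470801430030802010c60841851020470c01420030400822890442021830410c41c314000008120708418110108a0c31430002401c120608404310108a0c314908000014a0491841470810810c000320408018708a2010850810c40090040450c02870842030410821401090030451800832c22412880060840471430403003062021411c20031012c10832802400862071410c200b1010c10892803001460c104808a1071090c20450000802862011020491010830c20051401c004620110204910308314200714028010810714208a0450031890c10400801c808a0850420030462450441030002881010851420090461010c20031c01421010c50c30462011020021c02400c10810c50c62440811050022001c00410830c51062440810850072000c0
  RP := 0x30400000000060c00000000060c000000000204000000000308000000000204000000000614000000000714000000000814000000000b08000000000b08000000000b08000000000308000000000508000000000508000000000908000000000b04000000000b0c0000000005080000000005080000000005080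
  PA := 0x904400000000b14100000000b1c200000000e2d300000000338b00000000e04b00000000628f0000000072d000000000835200000001008c00000001008f00000001318f00000000d09100000000d09100000001009100000000b3c100000000b0500000000101120000000061120000000051130000000131c0
  RS := 0x3020200000000000302010000000000030201000000000004030400000000000403030000000000030404000000000001020300000000000102030000000000010203000000000003040300000000000404020000000000030402000000000002040200000000000103020000000000020303000000000004010300000000000404010000000000040302000000000003030100000000000304010000000000030300
  O := 0x284c911203c70d182c509101c305080c101
  NG := 0x108310518720928b30d38f411493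
  hole := false
  X := ![0, 0, 0]
  ta := ![(0, 0), (0, 0), (0, 0)]
  tb := ![(0, 0), (0, 0), (0, 0)]
  big := [(6, 5), (12, 16), (8, 5), (14, 13), (7, 5), (13, 13)]

theorem d_ok : d.Ok where
  hd := by decide +kernel
  hd2 := by decide +kernel
  hn := by decide +kernel
  k1 := by decide +kernel
  k2 := by decide +kernel
  k3 := by decide +kernel
  k4 := by decide +kernel
  vbig := by decide +kernel

theorem opt3 : Opt 21 3 :=
  whole_opt d_ok rfl (by decide) (by decide +kernel) (by decide)

end Run7.h243.D21_3_0
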