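import Pool.Agent.Run7.h243.G.CTab

set_option maxRecDepth 100000
set_option linter.all false

/-! Tables for maps with 22 countries. -/

namespace Run7.h243.D22_1_1

open Run7.h243

def d : Dir where
  n := 22
  d := 15
  c0 := 1
  T := 0x34024a0c41cb20c3851820400480842c62431ce34c28510e2823472c620c0c90401472cd0890cc20a00504610e34328720200e14c18910b04004214d2c91070ca30638830e14d20718b10304a24008d00230720424a0c50462ce00620730324e28b08414d04418d14b3890c21ca30100818c2042c704534008938328918b28d0810051c810c38304a38400324b34c1871480873091480810ce18a3402c408e14124c0060cb28d1081c10ca34b08914730800610e3462021ca2ce0cc14900404030e1462890c21c110b34830a08824e04b1440c718034100e10b0891473083460ca10e24130718b14320a00234c2c91cd2060ca00214110e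
  TI := 0x10e1472cc18808324a0403440c22411cc14800a18b34e34a1483031891c03842c204030834628738210124b0c51ce14130328b10608d2402012832442001822c714c34e34b3870c228920c18500404038b0461c928210814c0cd1c128518830b3420c910038930328420014d2ce1c608108634a0033093872c110814128230b38414d1830092073061473480431022c900e2860cd04430a3852c01c920234324510a0401cc08638b2002c528c2041821c13493831ce14824330a3440462c008c04d08920014a2c31c610e24038734a2c308614430804c0c52802041821cb04938d3402870cc10920638504b08028e3463092c80c11c4085
  CY := 0x49249249200000000000000000000000000000000000000000000000000000000000000000000000000000000000000000009009048040000000000000000000000000000000000000000000000049249248201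
  IX := 0x34e2861cb1050c930808100e28610c0c708804d2452c014408c0c82c928118734e00114418928308838d2c730010530234738328b24620100e3060cb08124810a1473401851c42822c330834904e0010820451c81842892c300038214c10718d0cb2482810032ca18508120c1c424d38014720204c24d18e0cb10a0052c824a18338c34204710010d0ca3871893022c80450082cc14234324718128e10014428c20938108b1c318d00134a30b1442072433860801051060811431830801c100e30d1830812041ca2452c010114c08334b1c824a18e00b38a08114420724334630008124c20a10b1460c738d0011c22060c42452c1282000
  RP := 0x400000000000000000000000000000000000000000000000000000000000000000000000000000000000000000000000000000000000c0000000000000000000000000000000000000000000000000000000000001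
  PA := 0x100000000000200000000000300000000000c00000000000400000000000500000000000d00000000000600000000000600000000000700000000000800000000000b00000000000400000000000900000000000d00000000000b00000000000b00000000000100000000000800000000000e000000000002
  RS := 0x1000000000000000100000000000000010000000000000001000000000000000100000000000000010000000000000001000000000000000200000000000000020000000000000001000000000000000100000000000000010000000000000001000000000000000100000000000000010000000000000002000000000000000200000000000000010000000000000001000000000000000100000000000000010000000000000002
  O := 0x54a13244078c1628386080c101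
  NG := 0x420c41461c824a2cc34e
  hole := true
  X := ![0, 5, 14]
  ta := ![(5, 7), (14, 5), (0, 13)]
  tb := ![(16, 4), (21, 4), (20, 10)]
  big := [(6, 2), (9, 14), (8, 4), (14, 7), (3, 11), (21, 5)]

theorem d_ok : d.OkH where
  hd := by decide +kernel
  hd2 := by decide +kernel
  hn := by decide +kernel
  k1 := by decide +kernel
  k2 := by decide +kernel
  k3 := by decide +kernel
  k4 := by decide +kernel
  vbig := by decide +kernel
  hh := by decide +kernel
  hX := by decide +kernel
  hdist := by decide +kernel
  va := by decide +kernel
  vb := by decide +kernel
  na := by decide +kernel
  nb := by decide +kernel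
  lb := by decide +kernel
  pth := by decide +kernel
  ab := by decide +kernel
  abig := by decide +kernel

def c1 : CTab where
  n := 22
  e := 6
  c := 1
  T := 0x1850800101
  V := 0x70d2220485
  NU := 0x1010014203
  CY := 0x0
  IX := 0x2810608200
  RP := 0x0
  PR := 0x0
  walk := [1, 5]

theorem c1_ok : c1.Ok := ⟨by decide, by decide, by decide, by decide +kernel, by decide +kernel,
  by decide +kernel⟩

theorem opt2 : Opt 22 2 :=
  dir_opt d_ok c1_ok rfl (by decide) 0 (by decide) (by decide +kernel) (by decide +kernel)
    (by decide +kernel) (by decide)

end Run7.h243.D22_1_1
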